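import Pool.Agent.H60.Clifford.Defs

/-!
# A tuple of Hermitian matrices whose Clifford spectrum is a one-manifold

We exhibit three Hermitian `8 × 8` matrices whose Clifford spectrum is the union of two disjoint
round circles in `ℝ³`.
-/

open scoped TensorProduct Matrix

namespace Pool.Agent.H60.Clifford

/-! ## Relations in the Clifford algebra -/

theorem gen_sq {d : ℕ} (j : Fin d) : gen j * gen j = (1 : Cl d) := by
  unfold gen
  rw [CliffordAlgebra.ι_sq_scalar]
  simp [QuadraticMap.weightedSumSquares_apply, Pi.single_apply]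

theorem gen_anti {d : ℕ} {j k : Fin d} (h : j ≠ k) :
    gen j * gen k = - (gen k * gen j : Cl d) := by
  unfold gen
  apply eq_neg_of_add_eq_zero_left
  rw [CliffordAlgebra.ι_mul_ι_add_swap]
  have : QuadraticMap.polar (sumSq d) (Pi.single j (1 : ℂ)) (Pi.single k (1 : ℂ)) = 0 := by
    unfold QuadraticMap.polar
    simp only [QuadraticMap.weightedSumSquares_apply, Pi.add_apply, one_smul]
    rw [← Finset.sum_sub_distrib, ← Finset.sum_sub_distrib]
    apply Finset.sum_eq_zero
    intro i _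
    by_cases h1 : i = j
    · subst h1
      simp [h]
    · simp [Pi.single_apply, h1]
  rw [this, map_zero]

section Pauli

variable {ι : Type*} [Fintype ι] [DecidableEq ι]

/-- Block matrix `∑ a_j ⊗ σ_j`. -/
noncomputable def pauli (a : Fin 3 → Matrix ι ι ℂ) : Matrix (ι ⊕ ι) (ι ⊕ ι) ℂ :=
  Matrix.fromBlocks (a 2) (a 0 - Complex.I • a 1) (a 0 + Complex.I • a 1) (- a 2)

/-- The linear map used to define the Pauli representation. -/
noncomputable def pauliLin (ι : Type*) [Fintype ι] [DecidableEq ι] :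
    (Fin 3 → ℂ) →ₗ[ℂ] Matrix (ι ⊕ ι) (ι ⊕ ι) ℂ where
  toFun x := pauli (fun j => x j • (1 : Matrix ι ι ℂ))
  map_add' x y := by
    simp only [pauli, Pi.add_apply, Matrix.fromBlocks_add]
    congr 1 <;> module
  map_smul' c x := by
    simp only [pauli, Pi.smul_apply, Matrix.fromBlocks_smul, RingHom.id_apply]
    congr 1 <;> module

theorem pauliLin_apply (x : Fin 3 → ℂ) :
    pauliLin ι x = Matrix.fromBlocks (x 2 • (1 : Matrix ι ι ℂ))
      ((x 0 - Complex.I * x 1) • (1 : Matrix ι ι ℂ))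
      ((x 0 + Complex.I * x 1) • (1 : Matrix ι ι ℂ)) ((- x 2) • (1 : Matrix ι ι ℂ)) := by
  simp only [pauliLin, pauli, LinearMap.coe_mk, AddHom.coe_mk]
  congr 1 <;> module

theorem pauliLin_sq (x : Fin 3 → ℂ) :
    pauliLin ι x * pauliLin ι x = algebraMap ℂ _ (sumSq 3 x) := by
  have h1 : sumSq 3 x = x 0 * x 0 + x 1 * x 1 + x 2 * x 2 := by
    simp [QuadraticMap.weightedSumSquares_apply, Fin.sum_univ_three]
  have hI : Complex.I * Complex.I = -1 := Complex.I_mul_I
  rw [h1, Algebra.algebraMap_eq_smul_one, pauliLin_apply, Matrix.fromBlocks_multiply,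
    ← Matrix.fromBlocks_one, Matrix.fromBlocks_smul]
  simp only [smul_mul_smul_comm, mul_one, ← add_smul, smul_zero]
  congr 1
  · congr 1
    linear_combination (x 1 * x 1) * (-hI)
  · convert zero_smul ℂ (1 : Matrix ι ι ℂ) using 2
    ring
  · convert zero_smul ℂ (1 : Matrix ι ι ℂ) using 2
    ring
  · congr 1
    linear_combination (x 1 * x 1) * (-hI)

/-- The algebra homomorphism `a ↦ a ⊗ 1`. -/
noncomputable def diagHom (ι : Type*) [Fintype ι] [DecidableEq ι] :
    Matrix ι ι ℂ →ₐ[ℂ] Matrix (ι ⊕ ι) (ι ⊕ ι) ℂ where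
  toFun a := Matrix.fromBlocks a 0 0 a
  map_one' := Matrix.fromBlocks_one
  map_mul' a b := by simp [Matrix.fromBlocks_multiply]
  map_zero' := Matrix.fromBlocks_zero
  map_add' a b := by simp [Matrix.fromBlocks_add]
  commutes' r := by
    simp only [Algebra.algebraMap_eq_smul_one]
    rw [← Matrix.fromBlocks_one, Matrix.fromBlocks_smul, smul_zero]

/-- The Pauli representation of the Clifford algebra. -/
noncomputable def pauliRep (ι : Type*) [Fintype ι] [DecidableEq ι] :
    Cl 3 →ₐ[ℂ] Matrix (ι ⊕ ι) (ι ⊕ ι) ℂ :=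
  CliffordAlgebra.lift (sumSq 3) ⟨pauliLin ι, pauliLin_sq⟩

theorem commute_diag_pauli (a : Matrix ι ι ℂ) (y : Cl 3) :
    Commute (diagHom ι a) (pauliRep ι y) := by
  induction y using CliffordAlgebra.induction with
  | algebraMap r =>
    rw [AlgHom.commutes]
    exact (Algebra.commutes r _).symm
  | ι x =>
    rw [pauliRep, CliffordAlgebra.lift_ι_apply]
    simp only [pauliLin_apply, diagHom, AlgHom.coe_mk, RingHom.coe_mk, MonoidHom.coe_mk,
      OneHom.coe_mk, Commute, SemiconjBy, Matrix.fromBlocks_multiply]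
    simp
  | mul x y hx hy =>
    rw [map_mul]
    exact hx.mul_right hy
  | add x y hx hy =>
    rw [map_add]
    exact hx.add_right hy

/-- The combined representation of `M_ι(ℂ) ⊗ Cl(3)`. -/
noncomputable def bigRep (ι : Type*) [Fintype ι] [DecidableEq ι] :
    Matrix ι ι ℂ ⊗[ℂ] Cl 3 →ₐ[ℂ] Matrix (ι ⊕ ι) (ι ⊕ ι) ℂ :=
  Algebra.TensorProduct.lift (diagHom ι) (pauliRep ι) commute_diag_pauli

theorem bigRep_sum (a : Fin 3 → Matrix ι ι ℂ) :
    bigRep ι (∑ j, a j ⊗ₜ[ℂ] gen j) = pauli a := by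
  rw [map_sum]
  simp only [bigRep, Algebra.TensorProduct.lift_tmul, Fin.sum_univ_three, gen, pauliRep,
    CliffordAlgebra.lift_ι_apply, pauliLin_apply, diagHom, AlgHom.coe_mk, RingHom.coe_mk,
    MonoidHom.coe_mk, OneHom.coe_mk, Matrix.fromBlocks_multiply, Matrix.fromBlocks_add, pauli]
  simp [sub_eq_add_neg]

theorem om_left (j : Fin 3) :
    (gen 0 * gen 1 * gen 2 : Cl 3) * gen j = gen j * (gen 0 * gen 1 * gen 2) := by
  have h01 : (gen 0 * gen 1 : Cl 3) = - (gen 1 * gen 0) := gen_anti (by decide)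
  have h02 : (gen 0 * gen 2 : Cl 3) = - (gen 2 * gen 0) := gen_anti (by decide)
  have h12 : (gen 1 * gen 2 : Cl 3) = - (gen 2 * gen 1) := gen_anti (by decide)
  fin_cases j
  · show (gen 0 * gen 1 * gen 2 : Cl 3) * gen 0 = gen 0 * (gen 0 * gen 1 * gen 2)
    calc (gen 0 * gen 1 * gen 2 : Cl 3) * gen 0 = gen 0 * gen 1 * (gen 2 * gen 0) := by
          noncomm_ring
      _ = gen 0 * gen 1 * (- (gen 0 * gen 2)) := by rw [h02, neg_neg]
      _ = gen 0 * (-(gen 1 * gen 0)) * gen 2 := by noncomm_ring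
      _ = gen 0 * (gen 0 * gen 1) * gen 2 := by rw [h01]
      _ = _ := by noncomm_ring
  · show (gen 0 * gen 1 * gen 2 : Cl 3) * gen 1 = gen 1 * (gen 0 * gen 1 * gen 2)
    calc (gen 0 * gen 1 * gen 2 : Cl 3) * gen 1 = gen 0 * gen 1 * (gen 2 * gen 1) := by
          noncomm_ring
      _ = gen 0 * gen 1 * (- (gen 1 * gen 2)) := by rw [h12, neg_neg]
      _ = - (gen 0 * gen 1) * gen 1 * gen 2 := by noncomm_ring
      _ = (gen 1 * gen 0) * gen 1 * gen 2 := by rw [h01, neg_neg]
      _ = _ := by noncomm_ring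
  · show (gen 0 * gen 1 * gen 2 : Cl 3) * gen 2 = gen 2 * (gen 0 * gen 1 * gen 2)
    calc (gen 0 * gen 1 * gen 2 : Cl 3) * gen 2 = gen 0 * (gen 1 * gen 2) * gen 2 := by
          noncomm_ring
      _ = - (gen 0 * gen 2) * gen 1 * gen 2 := by rw [h12]; noncomm_ring
      _ = (gen 2 * gen 0) * gen 1 * gen 2 := by rw [h02, neg_neg]
      _ = _ := by noncomm_ring

theorem om0 : (gen 0 : Cl 3) * (gen 0 * gen 1 * gen 2) = gen 1 * gen 2 := by
  calc (gen 0 : Cl 3) * (gen 0 * gen 1 * gen 2) = (gen 0 * gen 0) * (gen 1 * gen 2) := by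
        noncomm_ring
    _ = gen 1 * gen 2 := by rw [gen_sq, one_mul]

theorem om1 : (gen 1 : Cl 3) * (gen 0 * gen 1 * gen 2) = - (gen 0 * gen 2) := by
  have h01 : (gen 1 * gen 0 : Cl 3) = - (gen 0 * gen 1) := gen_anti (by decide)
  calc (gen 1 : Cl 3) * (gen 0 * gen 1 * gen 2) = (gen 1 * gen 0) * gen 1 * gen 2 := by
        noncomm_ring
    _ = - (gen 0 * (gen 1 * gen 1) * gen 2) := by rw [h01]; noncomm_ring
    _ = - (gen 0 * gen 2) := by rw [gen_sq, mul_one]

theorem om2 : (gen 2 : Cl 3) * (gen 0 * gen 1 * gen 2) = gen 0 * gen 1 := by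
  rw [← om_left]
  calc (gen 0 * gen 1 * gen 2 : Cl 3) * gen 2 = gen 0 * gen 1 * (gen 2 * gen 2) := by
        noncomm_ring
    _ = gen 0 * gen 1 := by rw [gen_sq, mul_one]

theorem right_inv_aux (a N : Fin 3 → Matrix ι ι ℂ) (N0 : Matrix ι ι ℂ)
    (h0 : a 0 * N 0 + a 1 * N 1 + a 2 * N 2 = 1)
    (h12 : a 0 * N 1 - a 1 * N 0 - Complex.I • (a 2 * N0) = 0)
    (h13 : a 0 * N 2 - a 2 * N 0 + Complex.I • (a 1 * N0) = 0)
    (h23 : a 1 * N 2 - a 2 * N 1 - Complex.I • (a 0 * N0) = 0) :
    (∑ j, a j ⊗ₜ[ℂ] gen j : Matrix ι ι ℂ ⊗[ℂ] Cl 3) *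
      ((∑ j, N j ⊗ₜ[ℂ] gen j) - (Complex.I • N0) ⊗ₜ[ℂ] (gen 0 * gen 1 * gen 2)) = 1 := by
  have e10 : (gen 1 * gen 0 : Cl 3) = - (gen 0 * gen 1) := gen_anti (by decide)
  have e20 : (gen 2 * gen 0 : Cl 3) = - (gen 0 * gen 2) := gen_anti (by decide)
  have e21 : (gen 2 * gen 1 : Cl 3) = - (gen 1 * gen 2) := gen_anti (by decide)
  have key : (∑ j, a j ⊗ₜ[ℂ] gen j : Matrix ι ι ℂ ⊗[ℂ] Cl 3) *
      ((∑ j, N j ⊗ₜ[ℂ] gen j) - (Complex.I • N0) ⊗ₜ[ℂ] (gen 0 * gen 1 * gen 2)) =
      (a 0 * N 0 + a 1 * N 1 + a 2 * N 2) ⊗ₜ[ℂ] (1 : Cl 3)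
      + (a 0 * N 1 - a 1 * N 0 - Complex.I • (a 2 * N0)) ⊗ₜ[ℂ] (gen 0 * gen 1 : Cl 3)
      + (a 0 * N 2 - a 2 * N 0 + Complex.I • (a 1 * N0)) ⊗ₜ[ℂ] (gen 0 * gen 2 : Cl 3)
      + (a 1 * N 2 - a 2 * N 1 - Complex.I • (a 0 * N0)) ⊗ₜ[ℂ] (gen 1 * gen 2 : Cl 3) := by
    simp only [Fin.sum_univ_three, mul_sub, mul_add, add_mul, Algebra.TensorProduct.tmul_mul_tmul,
      gen_sq, e10, e20, e21, om0, om1, om2, TensorProduct.add_tmul, TensorProduct.sub_tmul,
      TensorProduct.tmul_neg, mul_smul_comm]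
    abel
  rw [key, h0, h12, h13, h23]
  simp [Algebra.TensorProduct.one_def]

theorem left_inv_aux (a N : Fin 3 → Matrix ι ι ℂ) (N0 : Matrix ι ι ℂ)
    (h0 : N 0 * a 0 + N 1 * a 1 + N 2 * a 2 = 1)
    (h12 : N 0 * a 1 - N 1 * a 0 - Complex.I • (N0 * a 2) = 0)
    (h13 : N 0 * a 2 - N 2 * a 0 + Complex.I • (N0 * a 1) = 0)
    (h23 : N 1 * a 2 - N 2 * a 1 - Complex.I • (N0 * a 0) = 0) :
    ((∑ j, N j ⊗ₜ[ℂ] gen j) - (Complex.I • N0) ⊗ₜ[ℂ] (gen 0 * gen 1 * gen 2)) *
    (∑ j, a j ⊗ₜ[ℂ] gen j : Matrix ι ι ℂ ⊗[ℂ] Cl 3) = 1 := by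
  have e10 : (gen 1 * gen 0 : Cl 3) = - (gen 0 * gen 1) := gen_anti (by decide)
  have e20 : (gen 2 * gen 0 : Cl 3) = - (gen 0 * gen 2) := gen_anti (by decide)
  have e21 : (gen 2 * gen 1 : Cl 3) = - (gen 1 * gen 2) := gen_anti (by decide)
  have key : ((∑ j, N j ⊗ₜ[ℂ] gen j) - (Complex.I • N0) ⊗ₜ[ℂ] (gen 0 * gen 1 * gen 2)) *
      (∑ j, a j ⊗ₜ[ℂ] gen j : Matrix ι ι ℂ ⊗[ℂ] Cl 3) =
      (N 0 * a 0 + N 1 * a 1 + N 2 * a 2) ⊗ₜ[ℂ] (1 : Cl 3)
      + (N 0 * a 1 - N 1 * a 0 - Complex.I • (N0 * a 2)) ⊗ₜ[ℂ] (gen 0 * gen 1 : Cl 3)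
      + (N 0 * a 2 - N 2 * a 0 + Complex.I • (N0 * a 1)) ⊗ₜ[ℂ] (gen 0 * gen 2 : Cl 3)
      + (N 1 * a 2 - N 2 * a 1 - Complex.I • (N0 * a 0)) ⊗ₜ[ℂ] (gen 1 * gen 2 : Cl 3) := by
    simp only [Fin.sum_univ_three, mul_add, add_mul, sub_mul,
      Algebra.TensorProduct.tmul_mul_tmul, om_left,
      gen_sq, e10, e20, e21, om0, om1, om2, TensorProduct.add_tmul, TensorProduct.sub_tmul,
      TensorProduct.tmul_neg, smul_mul_assoc]
    abel
  rw [key, h0, h12, h13, h23]
  simp [Algebra.TensorProduct.one_def]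

theorem exists_inv_of_pauli {a : Fin 3 → Matrix ι ι ℂ} (h : IsUnit (pauli a)) :
    IsUnit (∑ j, a j ⊗ₜ[ℂ] gen j : Matrix ι ι ℂ ⊗[ℂ] Cl 3) := by
  obtain ⟨u, hu⟩ := h
  set X : Matrix (ι ⊕ ι) (ι ⊕ ι) ℂ :=
    ((u⁻¹ : (Matrix (ι ⊕ ι) (ι ⊕ ι) ℂ)ˣ) : Matrix (ι ⊕ ι) (ι ⊕ ι) ℂ) with hX
  have h1 : pauli a * X = 1 := by rw [← hu]; exact u.mul_inv
  have h2 : X * pauli a = 1 := by rw [← hu]; exact u.inv_mul
  rw [← Matrix.fromBlocks_toBlocks X] at h1 h2
  set X11 := X.toBlocks₁₁
  set X12 := X.toBlocks₁₂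
  set X21 := X.toBlocks₂₁
  set X22 := X.toBlocks₂₂
  rw [pauli, Matrix.fromBlocks_multiply, ← Matrix.fromBlocks_one, Matrix.fromBlocks_inj] at h1 h2
  obtain ⟨r1, r2, r3, r4⟩ := h1
  obtain ⟨l1, l2, l3, l4⟩ := h2
  have hI : Complex.I * Complex.I = -1 := Complex.I_mul_I
  simp only [sub_mul, add_mul, mul_add, mul_sub, neg_mul, mul_neg, smul_mul_assoc,
    mul_smul_comm] at r1 r2 r3 r4 l1 l2 l3 l4
  set N : Fin 3 → Matrix ι ι ℂ := ![(1 / 2 : ℂ) • (X12 + X21),
    (Complex.I / 2) • (X12 - X21), (1 / 2 : ℂ) • (X11 - X22)] with hN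
  have hN0 : N 0 = (1 / 2 : ℂ) • (X12 + X21) := rfl
  have hN1 : N 1 = (Complex.I / 2) • (X12 - X21) := rfl
  have hN2 : N 2 = (1 / 2 : ℂ) • (X11 - X22) := rfl
  have hr := right_inv_aux a N ((1 / 2 : ℂ) • (X11 + X22))
    (by
      rw [hN0, hN1, hN2]
      simp only [mul_smul_comm, mul_add, mul_sub]
      linear_combination (norm := module) (1 / 2 : ℂ) • r1 + (1 / 2 : ℂ) • r4)
    (by
      rw [hN0, hN1]
      simp only [mul_smul_comm, mul_add, mul_sub]
      linear_combination (norm := skip) (-Complex.I / 2 : ℂ) • r1 + (Complex.I / 2 : ℂ) • r4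
      match_scalars <;> first
        | ring1
        | linear_combination (1 / 2 : ℂ) * hI
        | linear_combination (-1 / 2 : ℂ) * hI
        | linear_combination (1 : ℂ) * hI
        | linear_combination (-1 : ℂ) * hI)
    (by
      rw [hN0, hN2]
      simp only [mul_smul_comm, mul_add, mul_sub]
      linear_combination (norm := skip) (-1 / 2 : ℂ) • r2 + (1 / 2 : ℂ) • r3
      match_scalars <;> first
        | ring1
        | linear_combination (1 / 2 : ℂ) * hI
        | linear_combination (-1 / 2 : ℂ) * hI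
        | linear_combination (1 : ℂ) * hI
        | linear_combination (-1 : ℂ) * hI)
    (by
      rw [hN1, hN2]
      simp only [mul_smul_comm, mul_add, mul_sub]
      linear_combination (norm := skip) (-Complex.I / 2 : ℂ) • r2 + (-Complex.I / 2 : ℂ) • r3
      match_scalars <;> first
        | ring1
        | linear_combination (1 / 2 : ℂ) * hI
        | linear_combination (-1 / 2 : ℂ) * hI
        | linear_combination (1 : ℂ) * hI
        | linear_combination (-1 : ℂ) * hI)
  have hl := left_inv_aux a N ((1 / 2 : ℂ) • (X11 + X22))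
    (by
      rw [hN0, hN1, hN2]
      simp only [smul_mul_assoc, add_mul, sub_mul]
      linear_combination (norm := module) (1 / 2 : ℂ) • l1 + (1 / 2 : ℂ) • l4)
    (by
      rw [hN0, hN1]
      simp only [smul_mul_assoc, add_mul, sub_mul]
      linear_combination (norm := skip) (-Complex.I / 2 : ℂ) • l1 + (Complex.I / 2 : ℂ) • l4
      match_scalars <;> first
        | ring1
        | linear_combination (1 / 2 : ℂ) * hI
        | linear_combination (-1 / 2 : ℂ) * hI
        | linear_combination (1 : ℂ) * hI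
        | linear_combination (-1 : ℂ) * hI)
    (by
      rw [hN0, hN2]
      simp only [smul_mul_assoc, add_mul, sub_mul]
      linear_combination (norm := skip) (-1 / 2 : ℂ) • l2 + (1 / 2 : ℂ) • l3
      match_scalars <;> first
        | ring1
        | linear_combination (1 / 2 : ℂ) * hI
        | linear_combination (-1 / 2 : ℂ) * hI
        | linear_combination (1 : ℂ) * hI
        | linear_combination (-1 : ℂ) * hI)
    (by
      rw [hN1, hN2]
      simp only [smul_mul_assoc, add_mul, sub_mul]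
      linear_combination (norm := skip) (-Complex.I / 2 : ℂ) • l2 + (-Complex.I / 2 : ℂ) • l3
      match_scalars <;> first
        | ring1
        | linear_combination (1 / 2 : ℂ) * hI
        | linear_combination (-1 / 2 : ℂ) * hI
        | linear_combination (1 : ℂ) * hI
        | linear_combination (-1 : ℂ) * hI)
  exact ⟨⟨_, _, hr, hl⟩, rfl⟩

/-- Existence of a nonzero kernel vector of `∑ a_j ⊗ σ_j`. -/
def Sing (a : Fin 3 → Matrix ι ι ℂ) : Prop :=
  ∃ v w : ι → ℂ, (v ≠ 0 ∨ w ≠ 0) ∧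
    a 2 *ᵥ v + (a 0 *ᵥ w - Complex.I • (a 1 *ᵥ w)) = 0 ∧
    (a 0 *ᵥ v + Complex.I • (a 1 *ᵥ v)) - a 2 *ᵥ w = 0

theorem not_isUnit_iff (a : Fin 3 → Matrix ι ι ℂ) :
    ¬ IsUnit (∑ j, a j ⊗ₜ[ℂ] gen j : Matrix ι ι ℂ ⊗[ℂ] Cl 3) ↔ Sing a := by
  have h1 : IsUnit (∑ j, a j ⊗ₜ[ℂ] gen j : Matrix ι ι ℂ ⊗[ℂ] Cl 3) ↔ IsUnit (pauli a) := by
    constructor
    · intro h
      rw [← bigRep_sum]
      exact h.map (bigRep ι)
    · exact exists_inv_of_pauli
  rw [h1, Matrix.isUnit_iff_isUnit_det, isUnit_iff_ne_zero, not_not,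
    ← Matrix.exists_mulVec_eq_zero_iff]
  constructor
  · rintro ⟨x, hx, hx0⟩
    refine ⟨fun i => x (Sum.inl i), fun i => x (Sum.inr i), ?_, ?_, ?_⟩
    · by_contra hcon
      push Not at hcon
      apply hx
      funext i
      rcases i with i | i
      · exact congrFun hcon.1 i
      · exact congrFun hcon.2 i
    · have hx' : x = Sum.elim (fun i => x (Sum.inl i)) (fun i => x (Sum.inr i)) := by
        funext i; rcases i with i | i <;> rfl
      rw [hx', pauli, Matrix.fromBlocks_mulVec] at hx0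
      funext i
      have := congrFun hx0 (Sum.inl i)
      simpa [Matrix.sub_mulVec, Matrix.smul_mulVec, Function.comp_def] using this
    · have hx' : x = Sum.elim (fun i => x (Sum.inl i)) (fun i => x (Sum.inr i)) := by
        funext i; rcases i with i | i <;> rfl
      rw [hx', pauli, Matrix.fromBlocks_mulVec] at hx0
      funext i
      have := congrFun hx0 (Sum.inr i)
      simpa [Matrix.add_mulVec, Matrix.smul_mulVec, Matrix.neg_mulVec, Function.comp_def,
        sub_eq_add_neg] using this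
  · rintro ⟨v, w, hne, e1, e2⟩
    refine ⟨Sum.elim v w, ?_, ?_⟩
    · intro h
      rcases hne with h' | h'
      · exact h' (by funext i; exact congrFun h (Sum.inl i))
      · exact h' (by funext i; exact congrFun h (Sum.inr i))
    · rw [pauli, Matrix.fromBlocks_mulVec]
      funext i
      rcases i with i | i
      · have := congrFun e1 i
        simpa [Matrix.sub_mulVec, Matrix.smul_mulVec, Function.comp_def] using this
      · have := congrFun e2 i
        simpa [Matrix.add_mulVec, Matrix.smul_mulVec, Matrix.neg_mulVec, Function.comp_def,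
          sub_eq_add_neg] using this

theorem sing_rot_aux {a b : Fin 3 → Matrix ι ι ℂ} (h0 : b 0 = - a 0) (h1 : b 1 = a 2)
    (h2 : b 2 = a 1) (h : Sing b) : Sing a := by
  obtain ⟨v, w, hne, e1, e2⟩ := h
  rw [h0, h1, h2] at e1 e2
  have hI : Complex.I * Complex.I = -1 := Complex.I_mul_I
  refine ⟨v - Complex.I • w, Complex.I • v - w, ?_, ?_, ?_⟩
  · by_contra hcon
    push Not at hcon
    obtain ⟨c1, c2⟩ := hcon
    have hv : v = 0 := by
      have h3 : w = Complex.I • v := by
        rw [sub_eq_zero] at c2; exact c2.symm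
      rw [h3, smul_smul, hI] at c1
      have h4 : (2 : ℂ) • v = 0 := by
        rw [← c1]; module
      exact (smul_eq_zero.mp h4).resolve_left two_ne_zero
    have hw : w = 0 := by
      rw [hv, smul_zero, zero_sub, neg_eq_zero] at c2; exact c2
    rcases hne with h' | h'
    · exact h' hv
    · exact h' hw
  · simp only [Matrix.mulVec_sub, Matrix.mulVec_smul, Matrix.neg_mulVec] at e1 e2 ⊢
    linear_combination (norm := skip) (1 : ℂ) • e1 + (-Complex.I) • e2
    match_scalars <;> first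
      | ring1
      | linear_combination (1 : ℂ) * hI
      | linear_combination (-1 : ℂ) * hI
  · simp only [Matrix.mulVec_sub, Matrix.mulVec_smul, Matrix.neg_mulVec] at e1 e2 ⊢
    linear_combination (norm := skip) (Complex.I) • e1 + (-1 : ℂ) • e2
    match_scalars <;> first
      | ring1
      | linear_combination (1 : ℂ) * hI
      | linear_combination (-1 : ℂ) * hI

theorem sing_rot {a b : Fin 3 → Matrix ι ι ℂ} (h0 : b 0 = - a 0) (h1 : b 1 = a 2)
    (h2 : b 2 = a 1) : Sing b ↔ Sing a :=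
  ⟨sing_rot_aux h0 h1 h2, sing_rot_aux (by rw [h0, neg_neg]) h2.symm h1.symm⟩

end Pauli

section DirectSum

variable {α β γ : Type*} [Fintype α] [DecidableEq α] [Fintype β] [DecidableEq β]
  [Fintype γ] [DecidableEq γ]

theorem sing_fromBlocks (a : Fin 3 → Matrix α α ℂ) (b : Fin 3 → Matrix β β ℂ) :
    Sing (fun j => Matrix.fromBlocks (a j) 0 0 (b j)) ↔ Sing a ∨ Sing b := by
  constructor
  · rintro ⟨v, w, hne, e1, e2⟩
    have hv' : v = Sum.elim (fun i => v (Sum.inl i)) (fun i => v (Sum.inr i)) := by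
      funext i; rcases i with i | i <;> rfl
    have hw' : w = Sum.elim (fun i => w (Sum.inl i)) (fun i => w (Sum.inr i)) := by
      funext i; rcases i with i | i <;> rfl
    rw [hv', hw'] at e1 e2
    simp only [Matrix.fromBlocks_mulVec] at e1 e2
    by_cases hl : (fun i => v (Sum.inl i)) = (0 : α → ℂ) ∧ (fun i => w (Sum.inl i)) = (0 : α → ℂ)
    · right
      refine ⟨fun i => v (Sum.inr i), fun i => w (Sum.inr i), ?_, ?_, ?_⟩
      · by_contra hcon
        push Not at hcon
        rcases hne with h' | h'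
        · apply h'
          funext i
          rcases i with i | i
          · exact congrFun hl.1 i
          · exact congrFun hcon.1 i
        · apply h'
          funext i
          rcases i with i | i
          · exact congrFun hl.2 i
          · exact congrFun hcon.2 i
      · funext i
        have := congrFun e1 (Sum.inr i)
        simpa [Function.comp_def] using this
      · funext i
        have := congrFun e2 (Sum.inr i)
        simpa [Function.comp_def] using this
    · left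
      refine ⟨fun i => v (Sum.inl i), fun i => w (Sum.inl i), ?_, ?_, ?_⟩
      · by_contra hcon
        push Not at hcon
        exact hl hcon
      · funext i
        have := congrFun e1 (Sum.inl i)
        simpa [Function.comp_def] using this
      · funext i
        have := congrFun e2 (Sum.inl i)
        simpa [Function.comp_def] using this
  · rintro (⟨v, w, hne, e1, e2⟩ | ⟨v, w, hne, e1, e2⟩)
    · refine ⟨Sum.elim v 0, Sum.elim w 0, ?_, ?_, ?_⟩
      · rcases hne with h' | h'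
        · left; intro h; exact h' (by funext i; exact congrFun h (Sum.inl i))
        · right; intro h; exact h' (by funext i; exact congrFun h (Sum.inl i))
      · funext i
        rcases i with i | i
        · have := congrFun e1 i
          simpa [Matrix.fromBlocks_mulVec, Function.comp_def] using this
        · simp [Matrix.fromBlocks_mulVec, Function.comp_def, Matrix.mulVec, dotProduct]
      · funext i
        rcases i with i | i
        · have := congrFun e2 i
          simpa [Matrix.fromBlocks_mulVec, Function.comp_def] using this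
        · simp [Matrix.fromBlocks_mulVec, Function.comp_def, Matrix.mulVec, dotProduct]
    · refine ⟨Sum.elim 0 v, Sum.elim 0 w, ?_, ?_, ?_⟩
      · rcases hne with h' | h'
        · left; intro h; exact h' (by funext i; exact congrFun h (Sum.inr i))
        · right; intro h; exact h' (by funext i; exact congrFun h (Sum.inr i))
      · funext i
        rcases i with i | i
        · simp [Matrix.fromBlocks_mulVec, Function.comp_def, Matrix.mulVec, dotProduct]
        · have := congrFun e1 i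
          simpa [Matrix.fromBlocks_mulVec, Function.comp_def] using this
      · funext i
        rcases i with i | i
        · simp [Matrix.fromBlocks_mulVec, Function.comp_def, Matrix.mulVec, dotProduct]
        · have := congrFun e2 i
          simpa [Matrix.fromBlocks_mulVec, Function.comp_def] using this

theorem reindex_mulVec (e : α ≃ γ) (M : Matrix α α ℂ) (x : γ → ℂ) :
    Matrix.reindex e e M *ᵥ x = (M *ᵥ (x ∘ e)) ∘ e.symm := by
  funext i
  simp only [Matrix.mulVec, Matrix.reindex_apply, Matrix.submatrix_apply, dotProduct,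
    Function.comp_apply]
  rw [← e.symm.sum_comp]
  simp

theorem sing_reindex (e : α ≃ γ) (a : Fin 3 → Matrix α α ℂ) :
    Sing (fun j => Matrix.reindex e e (a j)) ↔ Sing a := by
  constructor
  · rintro ⟨v, w, hne, e1, e2⟩
    simp only [reindex_mulVec] at e1 e2
    refine ⟨v ∘ e, w ∘ e, ?_, ?_, ?_⟩
    · rcases hne with h' | h'
      · left; intro h; apply h'; funext i
        have := congrFun h (e.symm i)
        simpa using this
      · right; intro h; apply h'; funext i
        have := congrFun h (e.symm i)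
        simpa using this
    · funext i
      have := congrFun e1 (e i)
      simpa using this
    · funext i
      have := congrFun e2 (e i)
      simpa using this
  · rintro ⟨v, w, hne, e1, e2⟩
    refine ⟨v ∘ e.symm, w ∘ e.symm, ?_, ?_, ?_⟩
    · rcases hne with h' | h'
      · left; intro h; apply h'; funext i
        have := congrFun h (e i)
        simpa using this
      · right; intro h; apply h'; funext i
        have := congrFun h (e i)
        simpa using this
    · simp only [reindex_mulVec]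
      funext i
      have := congrFun e1 (e.symm i)
      simpa [Function.comp_def] using this
    · simp only [reindex_mulVec]
      funext i
      have := congrFun e2 (e.symm i)
      simpa [Function.comp_def] using this

end DirectSum

section Concrete

/-- The basic triple of real symmetric `4 × 4` matrices. -/
noncomputable def blk (b c k l : ℝ) : Fin 3 → Matrix (Fin 4) (Fin 4) ℂ :=
  ![!![0, 0, (k : ℂ), 0; 0, 0, 0, (l : ℂ); (k : ℂ), 0, 0, 0; 0, (l : ℂ), 0, 0],
    !![0, 0, 0, -(l : ℂ); 0, 0, (k : ℂ), 0; 0, (k : ℂ), 0, 0; -(l : ℂ), 0, 0, 0],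
    !![-1, 0, 0, 0; 0, -1, 0, 0; 0, 0, (b : ℂ) - 1, 0; 0, 0, 0, (c : ℂ) - 1]]

/-- The eight scalar kernel equations. -/
structure KerEq (b c k l x y z : ℂ) (v w : Fin 4 → ℂ) : Prop where
  e10 : -(1 + z) * v 0 - (x - Complex.I * y) * w 0 + k * w 2 + Complex.I * l * w 3 = 0
  e11 : -(1 + z) * v 1 - (x - Complex.I * y) * w 1 + l * w 3 - Complex.I * k * w 2 = 0
  e12 : (b - (1 + z)) * v 2 - (x - Complex.I * y) * w 2 + k * w 0 - Complex.I * k * w 1 = 0
  e13 : (c - (1 + z)) * v 3 - (x - Complex.I * y) * w 3 + l * w 1 + Complex.I * l * w 0 = 0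
  e20 : -(x + Complex.I * y) * v 0 + k * v 2 - Complex.I * l * v 3 + (1 + z) * w 0 = 0
  e21 : -(x + Complex.I * y) * v 1 + l * v 3 + Complex.I * k * v 2 + (1 + z) * w 1 = 0
  e22 : -(x + Complex.I * y) * v 2 + k * v 0 + Complex.I * k * v 1 - (b - (1 + z)) * w 2 = 0
  e23 : -(x + Complex.I * y) * v 3 + l * v 1 - Complex.I * l * v 0 - (c - (1 + z)) * w 3 = 0

theorem kerEq_iff (b c k l x y z : ℝ) (v w : Fin 4 → ℂ) :
    KerEq b c k l x y z v w ↔
    ((fun j => blk b c k l j - ((![x, y, z] j : ℝ) : ℂ) • 1) 2 *ᵥ v +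
      ((fun j => blk b c k l j - ((![x, y, z] j : ℝ) : ℂ) • 1) 0 *ᵥ w -
        Complex.I • ((fun j => blk b c k l j - ((![x, y, z] j : ℝ) : ℂ) • 1) 1 *ᵥ w)) = 0 ∧
    ((fun j => blk b c k l j - ((![x, y, z] j : ℝ) : ℂ) • 1) 0 *ᵥ v +
      Complex.I • ((fun j => blk b c k l j - ((![x, y, z] j : ℝ) : ℂ) • 1) 1 *ᵥ v)) -
        (fun j => blk b c k l j - ((![x, y, z] j : ℝ) : ℂ) • 1) 2 *ᵥ w = 0) := by
  constructor
  · intro h
    obtain ⟨e10, e11, e12, e13, e20, e21, e22, e23⟩ := h
    constructor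
    · funext i
      fin_cases i
      · simp [blk, Matrix.mulVec, dotProduct, Fin.sum_univ_four, Matrix.one_apply]
        linear_combination e10
      · simp [blk, Matrix.mulVec, dotProduct, Fin.sum_univ_four, Matrix.one_apply]
        linear_combination e11
      · simp [blk, Matrix.mulVec, dotProduct, Fin.sum_univ_four, Matrix.one_apply]
        linear_combination e12
      · simp [blk, Matrix.mulVec, dotProduct, Fin.sum_univ_four, Matrix.one_apply]
        linear_combination e13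
    · funext i
      fin_cases i
      · simp [blk, Matrix.mulVec, dotProduct, Fin.sum_univ_four, Matrix.one_apply]
        linear_combination e20
      · simp [blk, Matrix.mulVec, dotProduct, Fin.sum_univ_four, Matrix.one_apply]
        linear_combination e21
      · simp [blk, Matrix.mulVec, dotProduct, Fin.sum_univ_four, Matrix.one_apply]
        linear_combination e22
      · simp [blk, Matrix.mulVec, dotProduct, Fin.sum_univ_four, Matrix.one_apply]
        linear_combination e23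
  · rintro ⟨h1, h2⟩
    have a0 := congrFun h1 0
    have a1 := congrFun h1 1
    have a2 := congrFun h1 2
    have a3 := congrFun h1 3
    have b0 := congrFun h2 0
    have b1 := congrFun h2 1
    have b2 := congrFun h2 2
    have b3 := congrFun h2 3
    simp [blk, Matrix.mulVec, dotProduct, Fin.sum_univ_four, Matrix.one_apply]
      at a0 a1 a2 a3 b0 b1 b2 b3
    constructor
    · linear_combination a0
    · linear_combination a1
    · linear_combination a2
    · linear_combination a3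
    · linear_combination b0
    · linear_combination b1
    · linear_combination b2
    · linear_combination b3

theorem ker_trivial {b c k l ξ ζ T r n χ ψ U V W s I : ℂ} {v w : Fin 4 → ℂ}
    (hI : I * I = -1)
    (e10 : -T * v 0 - ζ * w 0 + k * w 2 + I * l * w 3 = 0)
    (e11 : -T * v 1 - ζ * w 1 + l * w 3 - I * k * w 2 = 0)
    (e12 : (b - T) * v 2 - ζ * w 2 + k * w 0 - I * k * w 1 = 0)
    (e13 : (c - T) * v 3 - ζ * w 3 + l * w 1 + I * l * w 0 = 0)
    (e20 : -ξ * v 0 + k * v 2 - I * l * v 3 + T * w 0 = 0)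
    (e21 : -ξ * v 1 + l * v 3 + I * k * v 2 + T * w 1 = 0)
    (e22 : -ξ * v 2 + k * v 0 + I * k * v 1 - (b - T) * w 2 = 0)
    (e23 : -ξ * v 3 + l * v 1 - I * l * v 0 - (c - T) * w 3 = 0)
    (hξζ : ξ * ζ = r) (hnn : n = r + T ^ 2) (hn : n ≠ 0)
    (hχ : χ = k * w 2 + I * l * w 3) (hψ : ψ = k * v 2 - I * l * v 3)
    (hU : U = n * (b - T) - 2 * k ^ 2 * T) (hV : V = n * (c - T) - 2 * l ^ 2 * T)
    (hW : W = 2 * k * l * T) (hs : s = U * V + n ^ 2 * r - W ^ 2)
    (hD : s ^ 2 + (n * (U - V)) ^ 2 * r ≠ 0) : v = 0 ∧ w = 0 := by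
  have hα : -T * (v 0 + I * v 1) - ζ * (w 0 + I * w 1) + 2 * χ = 0 := by
    rw [hχ]; linear_combination e10 + I * e11 + (k * w 2) * hI
  have hα' : -ξ * (v 0 + I * v 1) + T * (w 0 + I * w 1) = 0 := by
    linear_combination e20 + I * e21 - (k * v 2) * hI
  have hβ : -T * (v 0 - I * v 1) - ζ * (w 0 - I * w 1) = 0 := by
    linear_combination e10 - I * e11 - (k * w 2) * hI
  have hβ' : -ξ * (v 0 - I * v 1) + T * (w 0 - I * w 1) + 2 * ψ = 0 := by
    rw [hψ]; linear_combination e20 - I * e21 + (k * v 2) * hI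
  have nα1 : n * (v 0 + I * v 1) = 2 * T * χ := by
    rw [hnn]; linear_combination (-T) * hα - ζ * hα' - (v 0 + I * v 1) * hξζ
  have nα2 : n * (w 0 + I * w 1) = 2 * ξ * χ := by
    rw [hnn]; linear_combination T * hα' - ξ * hα - (w 0 + I * w 1) * hξζ
  have nβ2 : n * (w 0 - I * w 1) = -2 * T * ψ := by
    rw [hnn]; linear_combination (-ξ) * hβ + T * hβ' - (w 0 - I * w 1) * hξζ
  have nβ1 : n * (v 0 - I * v 1) = 2 * ζ * ψ := by
    rw [hnn]; linear_combination (-T) * hβ - ζ * hβ' - (v 0 - I * v 1) * hξζ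
  have E1 : U * v 2 - n * ζ * w 2 + I * W * v 3 = 0 := by
    rw [hU, hW]
    linear_combination n * e12 - k * nβ2 + (2 * k * T) * hψ
  have E2 : V * v 3 - n * ζ * w 3 - I * W * v 2 = 0 := by
    rw [hV, hW]
    linear_combination n * e13 - I * l * nβ2 + (2 * I * l * T) * hψ +
      (-n * l * w 1 - 2 * l ^ 2 * T * v 3) * hI
  have E3 : -n * ξ * v 2 - U * w 2 + I * W * w 3 = 0 := by
    rw [hU, hW]
    linear_combination n * e22 - k * nα1 - (2 * k * T) * hχ
  have E4 : -n * ξ * v 3 - V * w 3 - I * W * w 2 = 0 := by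
    rw [hV, hW]
    linear_combination n * e23 + I * l * nα1 + (2 * I * l * T) * hχ +
      (-n * l * v 1 + 2 * l ^ 2 * T * w 3) * hI
  have H1 : s * v 2 + n * (U - V) * ζ * w 2 = 0 := by
    rw [hs]
    linear_combination V * E1 - n * ζ * E3 - I * W * E2 - (n ^ 2 * v 2) * hξζ - (W ^ 2 * v 2) * hI
  have H2 : -(n * (U - V) * ξ * v 2) + s * w 2 = 0 := by
    rw [hs]
    linear_combination (-n * ξ) * E1 - V * E3 - I * W * E4 - (n ^ 2 * w 2) * hξζ - (W ^ 2 * w 2) * hI
  have H3 : s * v 3 - n * (U - V) * ζ * w 3 = 0 := by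
    rw [hs]
    linear_combination U * E2 - n * ζ * E4 + I * W * E1 - (n ^ 2 * v 3) * hξζ - (W ^ 2 * v 3) * hI
  have H4 : n * (U - V) * ξ * v 3 + s * w 3 = 0 := by
    rw [hs]
    linear_combination (-n * ξ) * E2 - U * E4 + I * W * E3 - (n ^ 2 * w 3) * hξζ - (W ^ 2 * w 3) * hI
  have hv2 : v 2 = 0 := by
    have : (s ^ 2 + (n * (U - V)) ^ 2 * r) * v 2 = 0 := by
      linear_combination s * H1 - n * (U - V) * ζ * H2 - (n * (U - V)) ^ 2 * v 2 * hξζ
    exact (mul_eq_zero.mp this).resolve_left hD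
  have hw2 : w 2 = 0 := by
    have : (s ^ 2 + (n * (U - V)) ^ 2 * r) * w 2 = 0 := by
      linear_combination n * (U - V) * ξ * H1 + s * H2 - (n * (U - V)) ^ 2 * w 2 * hξζ
    exact (mul_eq_zero.mp this).resolve_left hD
  have hv3 : v 3 = 0 := by
    have : (s ^ 2 + (n * (U - V)) ^ 2 * r) * v 3 = 0 := by
      linear_combination s * H3 + n * (U - V) * ζ * H4 - (n * (U - V)) ^ 2 * v 3 * hξζ
    exact (mul_eq_zero.mp this).resolve_left hD
  have hw3 : w 3 = 0 := by
    have : (s ^ 2 + (n * (U - V)) ^ 2 * r) * w 3 = 0 := by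
      linear_combination -(n * (U - V) * ξ) * H3 + s * H4 - (n * (U - V)) ^ 2 * w 3 * hξζ
    exact (mul_eq_zero.mp this).resolve_left hD
  have hχ0 : χ = 0 := by rw [hχ, hw2, hw3]; ring
  have hψ0 : ψ = 0 := by rw [hψ, hv2, hv3]; ring
  rw [hχ0, mul_zero] at nα1 nα2
  rw [hψ0, mul_zero] at nβ1 nβ2
  have a1 := (mul_eq_zero.mp nα1).resolve_left hn
  have a2 := (mul_eq_zero.mp nα2).resolve_left hn
  have b1 := (mul_eq_zero.mp nβ1).resolve_left hn
  have b2 := (mul_eq_zero.mp nβ2).resolve_left hn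
  have hv0 : v 0 = 0 := by linear_combination (1 / 2 : ℂ) * a1 + (1 / 2 : ℂ) * b1
  have hw0 : w 0 = 0 := by linear_combination (1 / 2 : ℂ) * a2 + (1 / 2 : ℂ) * b2
  have hv1 : v 1 = 0 := by
    linear_combination (-I / 2) * a1 + (I / 2) * b1 + v 1 * hI
  have hw1 : w 1 = 0 := by
    linear_combination (-I / 2) * a2 + (I / 2) * b2 + w 1 * hI
  constructor
  · funext i
    fin_cases i
    · exact hv0
    · exact hv1
    · exact hv2
    · exact hv3
  · funext i
    fin_cases i
    · exact hw0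
    · exact hw1
    · exact hw2
    · exact hw3

theorem sq_add_aux {A B r : ℝ} (hr : 0 ≤ r) (h : A ^ 2 + B ^ 2 * r = 0) :
    A = 0 ∧ B ^ 2 * r = 0 := by
  have h1 : 0 ≤ B ^ 2 * r := mul_nonneg (sq_nonneg _) hr
  have h2 : A ^ 2 = 0 := le_antisymm (by linarith) (sq_nonneg _)
  exact ⟨pow_eq_zero_iff (two_ne_zero) |>.mp h2, by linarith⟩

theorem core_locus {b c K L M r t n : ℝ} (hbc : b + c = 13 / 2) (hbc' : b * c = 6) (hne : b ≠ c)
    (hk : K = 3 * b) (hl : L = 3 * c) (hM : M = 216 * t ^ 2)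
    (hr0 : 0 ≤ r) (hnn : n = r + t ^ 2) (hn : n ≠ 0)
    (hD : ((n * (b - t) - 2 * K * t) *
        (n * (c - t) - 2 * L * t) +
        n ^ 2 * r - M) ^ 2 +
        (n * ((n * (b - t) - 2 * K * t) - (n * (c - t) - 2 * L * t))) ^ 2 * r = 0) :
    (r = 5 ∧ t = 1) ∨ (r = 0 ∧ t = 2) := by
  obtain ⟨hs, hd⟩ := sq_add_aux hr0 hD
  rcases mul_eq_zero.mp hd with h | h
  · left
    have h1 := pow_eq_zero_iff (two_ne_zero) |>.mp h
    have h2 : (n * (b - t) - 2 * K * t) - (n * (c - t) - 2 * L * t) = 0 :=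
      (mul_eq_zero.mp h1).resolve_left hn
    rw [hk, hl] at h2
    have h3 : (b - c) * (n - 6 * t) = 0 := by linear_combination h2
    have h4 : n - 6 * t = 0 := (mul_eq_zero.mp h3).resolve_left (sub_ne_zero.mpr hne)
    have h5 : n = 6 * t := by linarith
    have htne : t ≠ 0 := by
      intro h0
      rw [h0, mul_zero] at h5
      exact hn h5
    have h6 : 36 * t ^ 2 * (6 * t - 6) = 0 := by
      have hr' : r = 6 * t - t ^ 2 := by linarith
      rw [hM, hk, hl, h5, hr'] at hs
      linear_combination hs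
    have h7 : 6 * t - 6 = 0 := by
      have h8 : (36 * t ^ 2) ≠ 0 := by positivity
      exact (mul_eq_zero.mp h6).resolve_left h8
    have h8 : t = 1 := by linarith
    constructor
    · rw [h8] at hnn h5; linarith
    · exact h8
  · right
    refine ⟨h, ?_⟩
    have hn2 : n = t ^ 2 := by rw [hnn, h, zero_add]
    have htne : t ≠ 0 := by
      intro h0
      apply hn
      rw [hn2, h0]; ring
    rw [hM, hk, hl, hn2, h] at hs
    have h9 : t ^ 3 * ((t - 2) * (t ^ 2 - 9 / 2 * t + 36)) = 0 := by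
      linear_combination hs + (-t ^ 4 + 12 * t ^ 3 - 36 * t ^ 2) * hbc' + (t ^ 5 - 6 * t ^ 4) * hbc
    have h10 := (mul_eq_zero.mp h9).resolve_left (pow_ne_zero 3 htne)
    rcases mul_eq_zero.mp h10 with h11 | h11
    · linarith
    · nlinarith [sq_nonneg (t - 9 / 4)]

end Concrete

end Pool.Agent.H60.Clifford
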