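import Mathlib

/-!
# Clifford spectra: definitions
-/

open scoped TensorProduct Matrix

namespace Pool.Agent.H60.Clifford

/-- The quadratic form `x ↦ ∑ j, x_j ^ 2` on `ℂ^d`. -/
noncomputable abbrev sumSq (d : ℕ) : QuadraticForm ℂ (Fin d → ℂ) :=
  QuadraticMap.weightedSumSquares ℂ (fun _ : Fin d => (1 : ℂ))

/-- The complex Clifford algebra on `d` generators. -/
abbrev Cl (d : ℕ) : Type := CliffordAlgebra (sumSq d)

/-- The generators `e_j` of the complex Clifford algebra. -/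
noncomputable def gen {d : ℕ} (j : Fin d) : Cl d :=
  CliffordAlgebra.ι (sumSq d) (Pi.single j 1)

/-- The element `L_lam = ∑ j, (A_j - lam_j I) ⊗ e_j` of `M_n(ℂ) ⊗ Cl(d)`. -/
noncomputable def localizer {d n : ℕ} (A : Fin d → Matrix (Fin n) (Fin n) ℂ)
    (lam : EuclideanSpace ℝ (Fin d)) : Matrix (Fin n) (Fin n) ℂ ⊗[ℂ] Cl d :=
  ∑ j, (A j - ((lam j : ℝ) : ℂ) • (1 : Matrix (Fin n) (Fin n) ℂ)) ⊗ₜ[ℂ] gen j

/-- The Clifford spectrum: the points of `ℝ^d` at which `L_lam` is not invertible. -/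
def cliffordSpectrum {d n : ℕ} (A : Fin d → Matrix (Fin n) (Fin n) ℂ) :
    Set (EuclideanSpace ℝ (Fin d)) :=
  {lam | ¬ IsUnit (localizer A lam)}

/-- A one-manifold: a nonempty Hausdorff space in which every point has an open neighbourhood
homeomorphic to `ℝ`. -/
def IsOneManifold (M : Type*) [TopologicalSpace M] : Prop :=
  Nonempty M ∧ T2Space M ∧ ∀ x : M, ∃ U : Set M, IsOpen U ∧ x ∈ U ∧ Nonempty (U ≃ₜ ℝ)

end Pool.Agent.H60.Clifford
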