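import Pool.Agent.H60.Clifford.Basic

open scoped TensorProduct Matrix

namespace Pool.Agent.H60.Clifford

theorem ker_trivial_real {b c k l x y z r t n U V W s : ℝ} {v w : Fin 4 → ℂ}
    (h : KerEq b c k l x y z v w)
    (ht : t = 1 + z) (hr : r = x ^ 2 + y ^ 2) (hn : n = r + t ^ 2) (hn0 : n ≠ 0)
    (hU : U = n * (b - t) - 2 * k ^ 2 * t) (hV : V = n * (c - t) - 2 * l ^ 2 * t)
    (hW : W = 2 * k * l * t) (hs : s = U * V + n ^ 2 * r - W ^ 2)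
    (hD : s ^ 2 + (n * (U - V)) ^ 2 * r ≠ 0) : v = 0 ∧ w = 0 := by
  obtain ⟨e10, e11, e12, e13, e20, e21, e22, e23⟩ := h
  have hI : Complex.I * Complex.I = -1 := Complex.I_mul_I
  have ht' : (1 + (z : ℂ)) = (t : ℂ) := by rw [ht]; push_cast; ring
  rw [ht'] at e10 e11 e12 e13 e20 e21 e22 e23
  have hξζ : ((x : ℂ) + Complex.I * y) * ((x : ℂ) - Complex.I * y) = (r : ℂ) := by
    rw [hr]; push_cast
    linear_combination (-(y : ℂ) ^ 2) * hI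
  have hnC : (n : ℂ) = (r : ℂ) + (t : ℂ) ^ 2 := by rw [hn]; push_cast; ring
  have hn0C : (n : ℂ) ≠ 0 := Complex.ofReal_ne_zero.mpr hn0
  have hUC : (U : ℂ) = n * (b - t) - 2 * (k : ℂ) ^ 2 * t := by rw [hU]; push_cast; ring
  have hVC : (V : ℂ) = n * (c - t) - 2 * (l : ℂ) ^ 2 * t := by rw [hV]; push_cast; ring
  have hWC : (W : ℂ) = 2 * (k : ℂ) * l * t := by rw [hW]; push_cast; ring
  have hsC : (s : ℂ) = (U : ℂ) * V + (n : ℂ) ^ 2 * r - (W : ℂ) ^ 2 := by rw [hs]; push_cast; ring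
  have hDC : (s : ℂ) ^ 2 + ((n : ℂ) * (U - V)) ^ 2 * r ≠ 0 := by
    have h1 : (s : ℂ) ^ 2 + ((n : ℂ) * (U - V)) ^ 2 * r =
        ((s ^ 2 + (n * (U - V)) ^ 2 * r : ℝ) : ℂ) := by push_cast; ring
    rw [h1]
    exact Complex.ofReal_ne_zero.mpr hD
  exact ker_trivial hI e10 e11 e12 e13 e20 e21 e22 e23 hξζ hnC hn0C rfl rfl hUC hVC hWC hsC hDC

theorem locus_of_ker {b c k l x y z : ℝ} (hbc : b + c = 13 / 2) (hbc' : b * c = 6) (hne : b ≠ c)
    (hk : k ^ 2 = 3 * b) (hl : l ^ 2 = 3 * c) {v w : Fin 4 → ℂ}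
    (h : KerEq b c k l x y z v w) (hvw : v ≠ 0 ∨ w ≠ 0) :
    (x ^ 2 + y ^ 2 = 5 ∧ z = 0) ∨ (x = 0 ∧ y = 0 ∧ z ^ 2 = 1) := by
  obtain ⟨t, ht⟩ : ∃ t : ℝ, t = 1 + z := ⟨_, rfl⟩
  obtain ⟨r, hr⟩ : ∃ r : ℝ, r = x ^ 2 + y ^ 2 := ⟨_, rfl⟩
  obtain ⟨n, hn⟩ : ∃ n : ℝ, n = r + t ^ 2 := ⟨_, rfl⟩
  obtain ⟨U, hU⟩ : ∃ U : ℝ, U = n * (b - t) - 2 * k ^ 2 * t := ⟨_, rfl⟩
  obtain ⟨V, hV⟩ : ∃ V : ℝ, V = n * (c - t) - 2 * l ^ 2 * t := ⟨_, rfl⟩
  obtain ⟨W, hW⟩ : ∃ W : ℝ, W = 2 * k * l * t := ⟨_, rfl⟩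
  obtain ⟨s, hs⟩ : ∃ s : ℝ, s = U * V + n ^ 2 * r - W ^ 2 := ⟨_, rfl⟩
  have hr0 : 0 ≤ r := by rw [hr]; positivity
  by_cases hn0 : n = 0
  · right
    have ht2 : 0 ≤ t ^ 2 := sq_nonneg t
    have hr1 : r = 0 := by linarith
    have ht1 : t ^ 2 = 0 := by linarith
    have hx2 : 0 ≤ x ^ 2 := sq_nonneg x
    have hy2 : 0 ≤ y ^ 2 := sq_nonneg y
    have hx : x ^ 2 = 0 := by linarith
    have hy : y ^ 2 = 0 := by linarith
    have ht3 := pow_eq_zero_iff (two_ne_zero) |>.mp ht1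
    refine ⟨pow_eq_zero_iff (two_ne_zero) |>.mp hx, pow_eq_zero_iff (two_ne_zero) |>.mp hy, ?_⟩
    have : z = -1 := by linarith
    rw [this]; norm_num
  · by_cases hD : s ^ 2 + (n * (U - V)) ^ 2 * r = 0
    · have hM : W ^ 2 = 216 * t ^ 2 := by
        have h1 : W ^ 2 = 4 * k ^ 2 * l ^ 2 * t ^ 2 := by rw [hW]; ring
        rw [h1, hk, hl]
        linear_combination 36 * t ^ 2 * hbc'
      have hD' : ((n * (b - t) - 2 * (k ^ 2) * t) * (n * (c - t) - 2 * (l ^ 2) * t) +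
          n ^ 2 * r - W ^ 2) ^ 2 +
          (n * ((n * (b - t) - 2 * (k ^ 2) * t) - (n * (c - t) - 2 * (l ^ 2) * t))) ^ 2 * r
            = 0 := by
        rw [← hU, ← hV, ← hs]; exact hD
      rcases core_locus hbc hbc' hne hk hl hM hr0 hn hn0 hD' with h' | h'
      · left
        exact ⟨by rw [← hr]; exact h'.1, by linarith [h'.2]⟩
      · right
        have hx2 : 0 ≤ x ^ 2 := sq_nonneg x
        have hy2 : 0 ≤ y ^ 2 := sq_nonneg y
        have hx : x ^ 2 = 0 := by linarith [h'.1]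
        have hy : y ^ 2 = 0 := by linarith [h'.1]
        refine ⟨pow_eq_zero_iff (two_ne_zero) |>.mp hx,
          pow_eq_zero_iff (two_ne_zero) |>.mp hy, ?_⟩
        have : z = 1 := by linarith [h'.2]
        rw [this]; norm_num
    · exfalso
      have := ker_trivial_real h ht hr hn hn0 hU hV hW hs hD
      rcases hvw with h' | h'
      · exact h' this.1
      · exact h' this.2

theorem kerEq_of {b c k l x y z : ℝ} {ξ ζ P Q R S v2 v3 w2 w3 : ℂ}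
    (hξ : ξ = x + Complex.I * y) (hζ : ζ = x - Complex.I * y)
    (h1 : -(1 + z) * P - ζ * R + 2 * (k * w2 + Complex.I * l * w3) = 0)
    (h2 : -(1 + z) * Q - ζ * S = 0)
    (h3 : -ξ * P + (1 + z) * R = 0)
    (h4 : -ξ * Q + (1 + z) * S + 2 * (k * v2 - Complex.I * l * v3) = 0)
    (h5 : (b - (1 + z)) * v2 - ζ * w2 + k * S = 0)
    (h6 : (c - (1 + z)) * v3 - ζ * w3 + Complex.I * l * S = 0)
    (h7 : -ξ * v2 + k * P - (b - (1 + z)) * w2 = 0)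
    (h8 : -ξ * v3 - Complex.I * l * P - (c - (1 + z)) * w3 = 0) :
    KerEq b c k l x y z ![(P + Q) / 2, -Complex.I * (P - Q) / 2, v2, v3]
      ![(R + S) / 2, -Complex.I * (R - S) / 2, w2, w3] := by
  have hI : Complex.I * Complex.I = -1 := Complex.I_mul_I
  rw [hξ] at h3 h4 h7 h8
  rw [hζ] at h1 h2 h5 h6
  constructor
  · show -(1 + (z : ℂ)) * ((P + Q) / 2) - (x - Complex.I * y) * ((R + S) / 2) + k * w2 +
      Complex.I * l * w3 = 0
    linear_combination (1 / 2 : ℂ) * h1 + (1 / 2 : ℂ) * h2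
  · show -(1 + (z : ℂ)) * (-Complex.I * (P - Q) / 2) -
      (x - Complex.I * y) * (-Complex.I * (R - S) / 2) + l * w3 - Complex.I * k * w2 = 0
    linear_combination (-Complex.I / 2) * h1 + (Complex.I / 2) * h2 + (l * w3) * hI
  · show ((b : ℂ) - (1 + z)) * v2 - (x - Complex.I * y) * w2 + k * ((R + S) / 2) -
      Complex.I * k * (-Complex.I * (R - S) / 2) = 0
    linear_combination h5 + ((k : ℂ) * (R - S) / 2) * hI
  · show ((c : ℂ) - (1 + z)) * v3 - (x - Complex.I * y) * w3 +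
      l * (-Complex.I * (R - S) / 2) + Complex.I * l * ((R + S) / 2) = 0
    linear_combination h6
  · show -((x : ℂ) + Complex.I * y) * ((P + Q) / 2) + k * v2 - Complex.I * l * v3 +
      (1 + z) * ((R + S) / 2) = 0
    linear_combination (1 / 2 : ℂ) * h3 + (1 / 2 : ℂ) * h4
  · show -((x : ℂ) + Complex.I * y) * (-Complex.I * (P - Q) / 2) + l * v3 +
      Complex.I * k * v2 + (1 + z) * (-Complex.I * (R - S) / 2) = 0
    linear_combination (-Complex.I / 2) * h3 + (Complex.I / 2) * h4 + (l * v3) * hI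
  · show -((x : ℂ) + Complex.I * y) * v2 + k * ((P + Q) / 2) +
      Complex.I * k * (-Complex.I * (P - Q) / 2) - (b - (1 + z)) * w2 = 0
    linear_combination h7 - ((k : ℂ) * (P - Q) / 2) * hI
  · show -((x : ℂ) + Complex.I * y) * v3 + l * (-Complex.I * (P - Q) / 2) -
      Complex.I * l * ((P + Q) / 2) - (c - (1 + z)) * w3 = 0
    linear_combination h8

theorem ker_circle {b c k l x y : ℝ} (hbc' : b * c = 6)
    (hk : k ^ 2 = 3 * b) (hl : l ^ 2 = 3 * c) (hr : x ^ 2 + y ^ 2 = 5) :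
    ∃ v w : Fin 4 → ℂ, (v ≠ 0 ∨ w ≠ 0) ∧ KerEq b c k l x y ((0 : ℝ) : ℂ) v w := by
  have hI : Complex.I * Complex.I = -1 := Complex.I_mul_I
  have hkC : (k : ℂ) ^ 2 = 3 * (b : ℂ) := by
    have := congrArg (fun t : ℝ => (t : ℂ)) hk
    push_cast at this
    exact this
  have hlC : (l : ℂ) ^ 2 = 3 * (c : ℂ) := by
    have := congrArg (fun t : ℝ => (t : ℂ)) hl
    push_cast at this
    exact this
  have hbcC' : (b : ℂ) * c = 6 := by
    have := congrArg (fun t : ℝ => (t : ℂ)) hbc'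
    push_cast at this
    exact this
  have hrC : (x : ℂ) ^ 2 + (y : ℂ) ^ 2 = 5 := by
    have := congrArg (fun t : ℝ => (t : ℂ)) hr
    push_cast at this
    exact this
  obtain ⟨ξ, hξ⟩ : ∃ ξ : ℂ, ξ = (x : ℂ) + Complex.I * y := ⟨_, rfl⟩
  obtain ⟨ζ, hζ⟩ : ∃ ζ : ℂ, ζ = (x : ℂ) - Complex.I * y := ⟨_, rfl⟩
  have hξζ : ξ * ζ = 5 := by
    rw [hξ, hζ]
    linear_combination hrC - ((y : ℂ) ^ 2) * hI
  obtain ⟨W, hW⟩ : ∃ W : ℂ, W = 2 * (k : ℂ) * l := ⟨_, rfl⟩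
  have hW2 : W ^ 2 = 216 := by
    have : W ^ 2 = 4 * (k : ℂ) ^ 2 * (l : ℂ) ^ 2 := by rw [hW]; ring
    rw [this, hkC, hlC]
    linear_combination 36 * hbcC'
  obtain ⟨ψ, hψ⟩ : ∃ ψ : ℂ, ψ = Complex.I * k * W - 6 * Complex.I * l := ⟨_, rfl⟩
  have hkl : (k : ℂ) * l * W = 108 := by
    linear_combination (1 / 2 : ℂ) * hW2 - (1 / 2 : ℂ) * W * hW
  refine ⟨_, _, Or.inl ?_, kerEq_of (P := 2 * Complex.I * l * ξ) (Q := ζ * ψ / 3)
    (R := 2 * Complex.I * l * ξ ^ 2) (S := - ψ / 3) (v2 := Complex.I * W) (v3 := 6) (w2 := 0)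
    (w3 := 6 * ξ) hξ hζ ?_ ?_ ?_ ?_ ?_ ?_ ?_ ?_⟩
  · intro h0
    have := congrFun h0 3
    simp at this
  · push_cast
    linear_combination (-2 * Complex.I * l * ξ) * hξζ
  · push_cast
    ring
  · push_cast
    ring
  · push_cast
    rw [hψ]
    linear_combination (-(Complex.I * k * W - 6 * Complex.I * l) / 3) * hξζ
  · push_cast
    rw [hψ]
    linear_combination (-Complex.I * W / 3) * hkC - Complex.I * hW
  · push_cast
    rw [hψ]
    linear_combination (-6 : ℂ) * hξζ - 2 * hlC + (-(l * k * W) / 3 + 2 * l ^ 2) * hI +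
      (1 / 3 : ℂ) * hkl
  · push_cast
    linear_combination (-ξ * Complex.I) * hW
  · push_cast
    linear_combination (2 * ξ) * hlC + (-2 * l ^ 2 * ξ) * hI

theorem ker_axis_one {b c k l : ℝ} (hbc : b + c = 13 / 2) (hbc' : b * c = 6) (hb : 0 < b)
    (hk : k ^ 2 = 3 * b) (hl : l ^ 2 = 3 * c) :
    ∃ v w : Fin 4 → ℂ, (v ≠ 0 ∨ w ≠ 0) ∧ KerEq b c k l ((0 : ℝ) : ℂ) ((0 : ℝ) : ℂ)
      ((1 : ℝ) : ℂ) v w := by
  have hI : Complex.I * Complex.I = -1 := Complex.I_mul_I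
  have hkC : (k : ℂ) ^ 2 = 3 * (b : ℂ) := by
    have := congrArg (fun t : ℝ => (t : ℂ)) hk
    push_cast at this
    exact this
  have hlC : (l : ℂ) ^ 2 = 3 * (c : ℂ) := by
    have := congrArg (fun t : ℝ => (t : ℂ)) hl
    push_cast at this
    exact this
  have hbcC' : (b : ℂ) * c = 6 := by
    have := congrArg (fun t : ℝ => (t : ℂ)) hbc'
    push_cast at this
    exact this
  have hbcC : (b : ℂ) + c = 13 / 2 := by
    have := congrArg (fun t : ℝ => (t : ℂ)) hbc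
    push_cast at this
    exact this
  obtain ⟨W, hW⟩ : ∃ W : ℂ, W = 4 * (k : ℂ) * l := ⟨_, rfl⟩
  obtain ⟨U, hU⟩ : ∃ U : ℂ, U = -8 * ((b : ℂ) + 1) := ⟨_, rfl⟩
  obtain ⟨ψ, hψ⟩ : ∃ ψ : ℂ, ψ = Complex.I * k * W + Complex.I * l * U := ⟨_, rfl⟩
  refine ⟨_, _, Or.inl ?_, kerEq_of (x := 0) (y := 0) (z := 1) (ξ := 0) (ζ := 0) (P := 0) (Q := 0)
    (R := 0) (S := - ψ) (v2 := Complex.I * W) (v3 := -U) (w2 := 0)
    (w3 := 0) (by simp) (by simp) ?_ ?_ ?_ ?_ ?_ ?_ ?_ ?_⟩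
  · intro h0
    have h1 := congrFun h0 3
    have h2 : -U = 0 := h1
    rw [hU] at h2
    have h3 : ((b + 1 : ℝ) : ℂ) = 0 := by push_cast; linear_combination (1 / 8 : ℂ) * h2
    have h4 : b + 1 = 0 := Complex.ofReal_eq_zero.mp h3
    linarith
  · ring
  · ring
  · ring
  · push_cast
    rw [hψ]
    ring
  · push_cast
    rw [hψ, hU]
    linear_combination (-Complex.I * W) * hkC - (2 * Complex.I * (b + 1)) * hW
  · push_cast
    rw [hψ, hU, hW]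
    have h9 : (k : ℂ) ^ 2 * l ^ 2 = 54 := by
      rw [hkC, hlC]; linear_combination 9 * hbcC'
    linear_combination (-4 * (k : ℂ) ^ 2 * l ^ 2 + 8 * l ^ 2 * (b + 1)) * hI + 4 * h9
      - 8 * (b + 1) * hlC - 16 * hbcC' - 16 * hbcC
  · ring
  · ring

theorem ker_axis_neg_one (b c k l : ℝ) :
    ∃ v w : Fin 4 → ℂ, (v ≠ 0 ∨ w ≠ 0) ∧ KerEq b c k l ((0 : ℝ) : ℂ) ((0 : ℝ) : ℂ)
      ((-1 : ℝ) : ℂ) v w := by
  have hI : Complex.I * Complex.I = -1 := Complex.I_mul_I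
  refine ⟨_, _, Or.inr ?_, kerEq_of (x := 0) (y := 0) (z := -1) (ξ := 0) (ζ := 0) (P := 0) (Q := 0)
    (R := 2) (S := 0) (v2 := 0) (v3 := 0) (w2 := 0)
    (w3 := 0) (by simp) (by simp) ?_ ?_ ?_ ?_ ?_ ?_ ?_ ?_⟩
  · intro h0
    have h1 := congrFun h0 0
    simp at h1
  · simp
  · simp
  · simp
  · simp
  · simp
  · simp
  · simp
  · simp

theorem sing_blk_of {b c k l x y z : ℝ} (hbc : b + c = 13 / 2) (hbc' : b * c = 6)
    (hb : 0 < b) (hk : k ^ 2 = 3 * b) (hl : l ^ 2 = 3 * c)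
    (h : (x ^ 2 + y ^ 2 = 5 ∧ z = 0) ∨ (x = 0 ∧ y = 0 ∧ z ^ 2 = 1)) :
    Sing (fun j => blk b c k l j - ((![x, y, z] j : ℝ) : ℂ) • 1) := by
  suffices h' : ∃ v w : Fin 4 → ℂ, (v ≠ 0 ∨ w ≠ 0) ∧ KerEq b c k l x y z v w by
    obtain ⟨v, w, h1, h2⟩ := h'
    have := (kerEq_iff b c k l x y z v w).mp h2
    exact ⟨v, w, h1, this.1, this.2⟩
  rcases h with ⟨hr, hz⟩ | ⟨hx, hy, hz⟩
  · subst hz
    exact ker_circle hbc' hk hl hr
  · subst hx hy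
    have h1 : (z - 1) * (z + 1) = 0 := by linear_combination hz
    rcases mul_eq_zero.mp h1 with h2 | h2
    · have : z = 1 := by linarith
      subst this
      exact ker_axis_one hbc hbc' hb hk hl
    · have : z = -1 := by linarith
      subst this
      exact ker_axis_neg_one b c k l

theorem sing_blk {b c k l x y z : ℝ} (hbc : b + c = 13 / 2) (hbc' : b * c = 6) (hne : b ≠ c)
    (hb : 0 < b) (hk : k ^ 2 = 3 * b) (hl : l ^ 2 = 3 * c) :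
    Sing (fun j => blk b c k l j - ((![x, y, z] j : ℝ) : ℂ) • 1) ↔
      (x ^ 2 + y ^ 2 = 5 ∧ z = 0) ∨ (x = 0 ∧ y = 0 ∧ z ^ 2 = 1) := by
  constructor
  · rintro ⟨v, w, hne', e1, e2⟩
    exact locus_of_ker hbc hbc' hne hk hl ((kerEq_iff b c k l x y z v w).mpr ⟨e1, e2⟩) hne'
  · exact sing_blk_of hbc hbc' hb hk hl

end Pool.Agent.H60.Clifford
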