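import Pool.Agent.H60.Clifford.Kernel

open scoped TensorProduct Matrix

namespace Pool.Agent.H60.Clifford

/-- The larger of the two roots of `4 t ^ 2 - 26 t + 24 = 0`. -/
noncomputable def bp : ℝ := (13 + √73) / 4

/-- The smaller of the two roots. -/
noncomputable def bm : ℝ := (13 - √73) / 4

theorem sqrt73 : √(73 : ℝ) ^ 2 = 73 := Real.sq_sqrt (by norm_num)

theorem sqrt73_lt : √(73 : ℝ) < 13 := by
  rw [Real.sqrt_lt' (by norm_num)]; norm_num

theorem sqrt73_pos : 0 < √(73 : ℝ) := Real.sqrt_pos.mpr (by norm_num)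

theorem b_add : bp + bm = 13 / 2 := by unfold bp bm; ring

theorem b_mul : bp * bm = 6 := by
  have := sqrt73
  unfold bp bm; linear_combination (-1 / 16 : ℝ) * this

theorem b_ne : bp ≠ bm := by
  have := sqrt73_pos
  intro h
  unfold bp bm at h
  linarith

theorem bp_pos : 0 < bp := by
  have := sqrt73_pos
  unfold bp
  linarith

theorem bm_pos : 0 < bm := by
  have := sqrt73_lt
  unfold bm
  linarith

/-- The basic triple. -/
noncomputable def triA : Fin 3 → Matrix (Fin 4) (Fin 4) ℂ :=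
  blk bp bm (√(3 * bp)) (√(3 * bm))

theorem sing_triA (x y z : ℝ) :
    Sing (fun j => triA j - ((![x, y, z] j : ℝ) : ℂ) • 1) ↔
      (x ^ 2 + y ^ 2 = 5 ∧ z = 0) ∨ (x = 0 ∧ y = 0 ∧ z ^ 2 = 1) :=
  sing_blk b_add b_mul b_ne bp_pos
    (Real.sq_sqrt (mul_nonneg (by norm_num) bp_pos.le))
    (Real.sq_sqrt (mul_nonneg (by norm_num) bm_pos.le))

/-- The rotated and translated triple. -/
noncomputable def triB : Fin 3 → Matrix (Fin 4) (Fin 4) ℂ :=
  ![(2 : ℂ) • 1 - triA 0, triA 2, triA 1]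

theorem sing_triB (x y z : ℝ) :
    Sing (fun j => triB j - ((![x, y, z] j : ℝ) : ℂ) • 1) ↔
      ((2 - x) ^ 2 + z ^ 2 = 5 ∧ y = 0) ∨ (2 - x = 0 ∧ z = 0 ∧ y ^ 2 = 1) := by
  rw [← sing_triA (2 - x) z y]
  apply sing_rot
  · show (2 : ℂ) • (1 : Matrix (Fin 4) (Fin 4) ℂ) - triA 0 - (x : ℂ) • 1 =
      -(triA 0 - ((2 - x : ℝ) : ℂ) • 1)
    push_cast
    module
  · rfl
  · rfl

/-- The triple of `8 × 8` matrices. -/
noncomputable def tri : Fin 3 → Matrix (Fin 8) (Fin 8) ℂ :=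
  fun j => Matrix.reindex finSumFinEquiv finSumFinEquiv
    (Matrix.fromBlocks (triA j) 0 0 (triB j) : Matrix (Fin 4 ⊕ Fin 4) (Fin 4 ⊕ Fin 4) ℂ)

theorem reindex_sub_smul_one {α γ : Type*} [Fintype α] [DecidableEq α] [Fintype γ] [DecidableEq γ]
    (e : α ≃ γ) (M : Matrix α α ℂ) (t : ℂ) :
    Matrix.reindex e e M - t • 1 = Matrix.reindex e e (M - t • 1) := by
  ext i j
  simp [Matrix.one_apply]

theorem fromBlocks_sub_smul_one {α β : Type*} [Fintype α] [DecidableEq α] [Fintype β]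
    [DecidableEq β] (M : Matrix α α ℂ) (N : Matrix β β ℂ) (t : ℂ) :
    Matrix.fromBlocks M 0 0 N - t • 1 = Matrix.fromBlocks (M - t • 1) 0 0 (N - t • 1) := by
  rw [← Matrix.fromBlocks_one, Matrix.fromBlocks_smul]
  ext i j
  rcases i with i | i <;> rcases j with j | j <;> simp

theorem mem_cliffordSpectrum_tri (lam : EuclideanSpace ℝ (Fin 3)) :
    lam ∈ cliffordSpectrum tri ↔
      (lam 0 ^ 2 + lam 1 ^ 2 = 5 ∧ lam 2 = 0) ∨ ((lam 0 - 2) ^ 2 + lam 2 ^ 2 = 5 ∧ lam 1 = 0) := by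
  have h1 : lam ∈ cliffordSpectrum tri ↔
      Sing (fun j => tri j - ((lam j : ℝ) : ℂ) • (1 : Matrix (Fin 8) (Fin 8) ℂ)) := by
    rw [← not_isUnit_iff]
    rfl
  have h2 : (fun j => tri j - ((lam j : ℝ) : ℂ) • (1 : Matrix (Fin 8) (Fin 8) ℂ)) =
      fun j => Matrix.reindex finSumFinEquiv finSumFinEquiv
        (Matrix.fromBlocks (triA j - ((lam j : ℝ) : ℂ) • 1) 0 0
          (triB j - ((lam j : ℝ) : ℂ) • 1) : Matrix (Fin 4 ⊕ Fin 4) (Fin 4 ⊕ Fin 4) ℂ) := by
    funext j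
    rw [← fromBlocks_sub_smul_one, ← reindex_sub_smul_one]
    rfl
  have h3 : ∀ j, lam j = ![lam 0, lam 1, lam 2] j := by
    intro j
    fin_cases j <;> rfl
  rw [h1, h2, sing_reindex finSumFinEquiv
    (fun j => Matrix.fromBlocks (triA j - ((lam j : ℝ) : ℂ) • 1) 0 0
          (triB j - ((lam j : ℝ) : ℂ) • 1)), sing_fromBlocks
      (fun j => triA j - ((lam j : ℝ) : ℂ) • 1) (fun j => triB j - ((lam j : ℝ) : ℂ) • 1)]
  have h4 : (fun j => triA j - ((lam j : ℝ) : ℂ) • 1) =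
      fun j => triA j - ((![lam 0, lam 1, lam 2] j : ℝ) : ℂ) • 1 := by
    funext j
    rw [h3 j]
  have h5 : (fun j => triB j - ((lam j : ℝ) : ℂ) • 1) =
      fun j => triB j - ((![lam 0, lam 1, lam 2] j : ℝ) : ℂ) • 1 := by
    funext j
    rw [h3 j]
  rw [h4, h5, sing_triA, sing_triB]
  constructor
  · rintro ((h | ⟨hx, hy, hz⟩) | (⟨h, hy⟩ | ⟨hx, hz, hy⟩))
    · exact Or.inl h
    · right
      rw [hx, hz]
      exact ⟨by norm_num, hy⟩
    · right
      exact ⟨by linear_combination h, hy⟩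
    · left
      have : lam 0 = 2 := by linarith
      rw [this, hy]
      exact ⟨by norm_num, hz⟩
  · rintro (h | ⟨h, hy⟩)
    · exact Or.inl (Or.inl h)
    · exact Or.inr (Or.inl ⟨by linear_combination h, hy⟩)

theorem blk_isHermitian (b c k l : ℝ) (j : Fin 3) : (blk b c k l j).IsHermitian := by
  ext p q
  fin_cases j <;> fin_cases p <;> fin_cases q <;>
    simp [blk, Matrix.conjTranspose_apply, Complex.conj_ofReal]

theorem triB_isHermitian (j : Fin 3) : (triB j).IsHermitian := by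
  have h0 := blk_isHermitian bp bm (√(3 * bp)) (√(3 * bm))
  fin_cases j
  · show ((2 : ℂ) • (1 : Matrix (Fin 4) (Fin 4) ℂ) - triA 0).IsHermitian
    apply Matrix.IsHermitian.sub _ (h0 0)
    ext p q
    by_cases h : p = q
    · subst h
      simp
    · simp [h, Ne.symm h]
  · exact h0 2
  · exact h0 1

theorem tri_isHermitian (j : Fin 3) : (tri j).IsHermitian := by
  unfold tri
  rw [Matrix.reindex_apply]
  apply Matrix.IsHermitian.submatrix
  apply Matrix.IsHermitian.fromBlocks (blk_isHermitian _ _ _ _ j) _ (triB_isHermitian j)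
  simp

end Pool.Agent.H60.Clifford
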