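import Pool.Agent.H60.Clifford.Defs

namespace Pool.Agent.H60.Clifford

theorem exists_chart {E : Type*} [TopologicalSpace E] {M : Set E} (x : M) (V : Set E)
    (hV : IsOpen V) (hx : (x : E) ∈ V) (f : E → ℝ) (g : ℝ → E) (hf : ContinuousOn f V)
    (hg : Continuous g) (hgM : ∀ t, g t ∈ M) (hgV : ∀ t, g t ∈ V) (hfg : ∀ t, f (g t) = t)
    (hgf : ∀ q ∈ M, q ∈ V → g (f q) = q) :
    ∃ U : Set M, IsOpen U ∧ x ∈ U ∧ Nonempty (U ≃ₜ ℝ) := by
  refine ⟨Subtype.val ⁻¹' V, hV.preimage continuous_subtype_val, hx, ⟨?_⟩⟩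
  refine
    { toFun := fun q => f q.1.1
      invFun := fun t => ⟨⟨g t, hgM t⟩, hgV t⟩
      left_inv := ?_
      right_inv := ?_
      continuous_toFun := ?_
      continuous_invFun := ?_ }
  · intro q
    apply Subtype.ext
    apply Subtype.ext
    exact hgf q.1.1 q.1.2 q.2
  · intro t
    exact hfg t
  · have h1 : Continuous (fun q : (Subtype.val ⁻¹' V : Set M) => (⟨q.1.1, q.2⟩ : V)) :=
      (continuous_subtype_val.comp continuous_subtype_val).subtype_mk _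
    exact (continuousOn_iff_continuous_domRestrict.mp hf).comp h1
  · exact (hg.subtype_mk _).subtype_mk _

/-- The union of the two circles. -/
def twoCircles : Set (EuclideanSpace ℝ (Fin 3)) :=
  {q | (q 0 ^ 2 + q 1 ^ 2 = 5 ∧ q 2 = 0) ∨ ((q 0 - 2) ^ 2 + q 2 ^ 2 = 5 ∧ q 1 = 0)}

theorem ratParam {u0 v0 : ℝ} (h : u0 ^ 2 + v0 ^ 2 = 5) (t : ℝ) :
    (((1 - t ^ 2) * u0 - 2 * t * v0) / (1 + t ^ 2)) ^ 2 +
      (((1 - t ^ 2) * v0 + 2 * t * u0) / (1 + t ^ 2)) ^ 2 = 5 := by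
  have h1 : (1 + t ^ 2) ≠ 0 := by positivity
  field_simp
  linear_combination (1 + t ^ 2) ^ 2 * h

theorem ratParam_denom {u0 v0 : ℝ} (h : u0 ^ 2 + v0 ^ 2 = 5) (t : ℝ) :
    5 + (((1 - t ^ 2) * u0 - 2 * t * v0) / (1 + t ^ 2)) * u0 +
      (((1 - t ^ 2) * v0 + 2 * t * u0) / (1 + t ^ 2)) * v0 = 10 / (1 + t ^ 2) := by
  have h1 : (1 + t ^ 2) ≠ 0 := by positivity
  field_simp
  linear_combination (1 - t ^ 2) * h

theorem ratParam_inv {u0 v0 : ℝ} (h : u0 ^ 2 + v0 ^ 2 = 5) (t : ℝ) :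
    (-(((1 - t ^ 2) * u0 - 2 * t * v0) / (1 + t ^ 2)) * v0 +
      (((1 - t ^ 2) * v0 + 2 * t * u0) / (1 + t ^ 2)) * u0) /
      (5 + (((1 - t ^ 2) * u0 - 2 * t * v0) / (1 + t ^ 2)) * u0 +
      (((1 - t ^ 2) * v0 + 2 * t * u0) / (1 + t ^ 2)) * v0) = t := by
  have h1 : (1 + t ^ 2) ≠ 0 := by positivity
  rw [ratParam_denom h]
  field_simp
  linear_combination (2 * t) * h

theorem ratParam_left {u0 v0 u v : ℝ} (h0 : u0 ^ 2 + v0 ^ 2 = 5) (h : u ^ 2 + v ^ 2 = 5)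
    (hd : 5 + u * u0 + v * v0 ≠ 0) :
    ((1 - ((-u * v0 + v * u0) / (5 + u * u0 + v * v0)) ^ 2) * u0 -
      2 * ((-u * v0 + v * u0) / (5 + u * u0 + v * v0)) * v0) /
      (1 + ((-u * v0 + v * u0) / (5 + u * u0 + v * v0)) ^ 2) = u ∧
    ((1 - ((-u * v0 + v * u0) / (5 + u * u0 + v * v0)) ^ 2) * v0 +
      2 * ((-u * v0 + v * u0) / (5 + u * u0 + v * v0)) * u0) /
      (1 + ((-u * v0 + v * u0) / (5 + u * u0 + v * v0)) ^ 2) = v := by
  obtain ⟨d, hd'⟩ : ∃ d : ℝ, d = 5 + u * u0 + v * v0 := ⟨_, rfl⟩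
  obtain ⟨e, he⟩ : ∃ e : ℝ, e = -u * v0 + v * u0 := ⟨_, rfl⟩
  rw [← hd'] at hd ⊢
  rw [← he]
  have hde : d ^ 2 + e ^ 2 = 10 * d := by
    rw [hd', he]
    linear_combination (v0 ^ 2 + u0 ^ 2) * h + 5 * h0
  have h1 : (1 + (e / d) ^ 2) = 10 / d := by
    field_simp
    linear_combination hde
  have h2 : (1 - (e / d) ^ 2) = (2 * d - 10) / d := by
    field_simp
    linear_combination -hde
  rw [h1, h2]
  constructor
  · field_simp
    rw [hd', he]
    linear_combination (2 * u) * h0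
  · field_simp
    rw [hd', he]
    linear_combination (2 * v) * h0

theorem circles_disjoint {x y z : ℝ} (h1 : x ^ 2 + y ^ 2 = 5) (h2 : z = 0)
    (h3 : (x - 2) ^ 2 + z ^ 2 = 5) (h4 : y = 0) : False := by
  subst h2 h4
  have : x = 1 := by linarith
  subst this
  norm_num at h1

theorem chart_one (x : twoCircles) (hx : x.1 0 ^ 2 + x.1 1 ^ 2 = 5) (hx' : x.1 2 = 0) :
    ∃ U : Set twoCircles, IsOpen U ∧ x ∈ U ∧ Nonempty (U ≃ₜ ℝ) := by
  obtain ⟨u0, hu0⟩ : ∃ u0 : ℝ, u0 = x.1 0 := ⟨_, rfl⟩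
  obtain ⟨v0, hv0⟩ : ∃ v0 : ℝ, v0 = x.1 1 := ⟨_, rfl⟩
  rw [← hu0, ← hv0] at hx
  have c0 : Continuous (fun q : EuclideanSpace ℝ (Fin 3) => q 0) := by fun_prop
  have c1 : Continuous (fun q : EuclideanSpace ℝ (Fin 3) => q 1) := by fun_prop
  have c2 : Continuous (fun q : EuclideanSpace ℝ (Fin 3) => q 2) := by fun_prop
  apply exists_chart x
    ({q | ¬ ((q 0 - 2) ^ 2 + q 2 ^ 2 = 5 ∧ q 1 = 0)} ∩ {q | 5 + q 0 * u0 + q 1 * v0 ≠ 0})
    ?_ ?_ (fun q => (-q 0 * v0 + q 1 * u0) / (5 + q 0 * u0 + q 1 * v0))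
    (fun t => !₂[((1 - t ^ 2) * u0 - 2 * t * v0) / (1 + t ^ 2),
      ((1 - t ^ 2) * v0 + 2 * t * u0) / (1 + t ^ 2), 0])
  · apply ContinuousOn.div
    · exact Continuous.continuousOn (by fun_prop)
    · exact Continuous.continuousOn (by fun_prop)
    · intro q hq
      exact hq.2
  · have hne : ∀ t : ℝ, 1 + t ^ 2 ≠ 0 := fun t => by positivity
    have hd1 : Continuous (fun t : ℝ => ((1 - t ^ 2) * u0 - 2 * t * v0) / (1 + t ^ 2)) :=
      Continuous.div (by fun_prop) (by fun_prop) hne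
    have hd2 : Continuous (fun t : ℝ => ((1 - t ^ 2) * v0 + 2 * t * u0) / (1 + t ^ 2)) :=
      Continuous.div (by fun_prop) (by fun_prop) hne
    apply Continuous.comp (PiLp.continuous_toLp 2 _)
    apply continuous_pi
    intro i
    fin_cases i
    · exact hd1
    · exact hd2
    · exact continuous_const
  · intro t
    left
    exact ⟨ratParam hx t, rfl⟩
  · intro t
    constructor
    · rintro ⟨h3, h4⟩
      exact circles_disjoint (ratParam hx t) rfl h3 h4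
    · show 5 + (((1 - t ^ 2) * u0 - 2 * t * v0) / (1 + t ^ 2)) * u0 +
        (((1 - t ^ 2) * v0 + 2 * t * u0) / (1 + t ^ 2)) * v0 ≠ 0
      rw [ratParam_denom hx t]
      positivity
  · intro t
    exact ratParam_inv hx t
  · intro q hq hqV
    rcases hq with hq | hq
    · have := ratParam_left hx hq.1 hqV.2
      ext i
      fin_cases i
      · exact this.1
      · exact this.2
      · exact hq.2.symm
    · exact absurd hq hqV.1
  · apply IsOpen.inter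
    · have hcl : IsClosed {q : EuclideanSpace ℝ (Fin 3) |
          (q 0 - 2) ^ 2 + q 2 ^ 2 = 5 ∧ q 1 = 0} :=
        IsClosed.inter (isClosed_eq (by fun_prop) continuous_const)
          (isClosed_eq c1 continuous_const)
      exact hcl.isOpen_compl
    · exact isOpen_ne_fun (by fun_prop) continuous_const
  · constructor
    · rintro ⟨h3, h4⟩
      rw [← hu0, hx'] at h3
      rw [← hv0] at h4
      exact circles_disjoint hx rfl h3 h4
    · show 5 + x.1 0 * u0 + x.1 1 * v0 ≠ 0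
      rw [← hu0, ← hv0]
      nlinarith

theorem chart_two (x : twoCircles) (hx : (x.1 0 - 2) ^ 2 + x.1 2 ^ 2 = 5) (hx' : x.1 1 = 0) :
    ∃ U : Set twoCircles, IsOpen U ∧ x ∈ U ∧ Nonempty (U ≃ₜ ℝ) := by
  obtain ⟨u0, hu0⟩ : ∃ u0 : ℝ, u0 = x.1 0 - 2 := ⟨_, rfl⟩
  obtain ⟨v0, hv0⟩ : ∃ v0 : ℝ, v0 = x.1 2 := ⟨_, rfl⟩
  rw [← hu0, ← hv0] at hx
  have c0 : Continuous (fun q : EuclideanSpace ℝ (Fin 3) => q 0) := by fun_prop
  have c1 : Continuous (fun q : EuclideanSpace ℝ (Fin 3) => q 1) := by fun_prop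
  have c2 : Continuous (fun q : EuclideanSpace ℝ (Fin 3) => q 2) := by fun_prop
  apply exists_chart x
    ({q | ¬ (q 0 ^ 2 + q 1 ^ 2 = 5 ∧ q 2 = 0)} ∩ {q | 5 + (q 0 - 2) * u0 + q 2 * v0 ≠ 0})
    ?_ ?_ (fun q => (-(q 0 - 2) * v0 + q 2 * u0) / (5 + (q 0 - 2) * u0 + q 2 * v0))
    (fun t => !₂[((1 - t ^ 2) * u0 - 2 * t * v0) / (1 + t ^ 2) + 2, 0,
      ((1 - t ^ 2) * v0 + 2 * t * u0) / (1 + t ^ 2)])
  · apply ContinuousOn.div
    · exact Continuous.continuousOn (by fun_prop)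
    · exact Continuous.continuousOn (by fun_prop)
    · intro q hq
      exact hq.2
  · have hne : ∀ t : ℝ, 1 + t ^ 2 ≠ 0 := fun t => by positivity
    have hd1 : Continuous (fun t : ℝ => ((1 - t ^ 2) * u0 - 2 * t * v0) / (1 + t ^ 2)) :=
      Continuous.div (by fun_prop) (by fun_prop) hne
    have hd2 : Continuous (fun t : ℝ => ((1 - t ^ 2) * v0 + 2 * t * u0) / (1 + t ^ 2)) :=
      Continuous.div (by fun_prop) (by fun_prop) hne
    apply Continuous.comp (PiLp.continuous_toLp 2 _)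
    apply continuous_pi
    intro i
    fin_cases i
    · exact hd1.add continuous_const
    · exact continuous_const
    · exact hd2
  · intro t
    right
    refine ⟨?_, rfl⟩
    show (((1 - t ^ 2) * u0 - 2 * t * v0) / (1 + t ^ 2) + 2 - 2) ^ 2 +
      (((1 - t ^ 2) * v0 + 2 * t * u0) / (1 + t ^ 2)) ^ 2 = 5
    rw [add_sub_cancel_right]
    exact ratParam hx t
  · intro t
    constructor
    · rintro ⟨h3, h4⟩
      refine circles_disjoint h3 h4 ?_ rfl
      show (((1 - t ^ 2) * u0 - 2 * t * v0) / (1 + t ^ 2) + 2 - 2) ^ 2 +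
        (((1 - t ^ 2) * v0 + 2 * t * u0) / (1 + t ^ 2)) ^ 2 = 5
      rw [add_sub_cancel_right]
      exact ratParam hx t
    · show 5 + (((1 - t ^ 2) * u0 - 2 * t * v0) / (1 + t ^ 2) + 2 - 2) * u0 +
        (((1 - t ^ 2) * v0 + 2 * t * u0) / (1 + t ^ 2)) * v0 ≠ 0
      rw [add_sub_cancel_right, ratParam_denom hx t]
      positivity
  · intro t
    show (-(((1 - t ^ 2) * u0 - 2 * t * v0) / (1 + t ^ 2) + 2 - 2) * v0 +
      (((1 - t ^ 2) * v0 + 2 * t * u0) / (1 + t ^ 2)) * u0) /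
      (5 + (((1 - t ^ 2) * u0 - 2 * t * v0) / (1 + t ^ 2) + 2 - 2) * u0 +
      (((1 - t ^ 2) * v0 + 2 * t * u0) / (1 + t ^ 2)) * v0) = t
    rw [add_sub_cancel_right]
    exact ratParam_inv hx t
  · intro q hq hqV
    rcases hq with hq | hq
    · exact absurd hq hqV.1
    · have := ratParam_left hx hq.1 hqV.2
      ext i
      fin_cases i
      · exact eq_sub_iff_add_eq.mp this.1
      · exact hq.2.symm
      · exact this.2
  · apply IsOpen.inter
    · have hcl : IsClosed {q : EuclideanSpace ℝ (Fin 3) |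
          q 0 ^ 2 + q 1 ^ 2 = 5 ∧ q 2 = 0} :=
        IsClosed.inter (isClosed_eq (by fun_prop) continuous_const)
          (isClosed_eq c2 continuous_const)
      exact hcl.isOpen_compl
    · exact isOpen_ne_fun (by fun_prop) continuous_const
  · constructor
    · rintro ⟨h3, h4⟩
      refine circles_disjoint h3 h4 ?_ hx'
      rw [← hu0, ← hv0]
      exact hx
    · show 5 + (x.1 0 - 2) * u0 + x.1 2 * v0 ≠ 0
      rw [← hu0, ← hv0]
      nlinarith

theorem isOneManifold_twoCircles : IsOneManifold twoCircles := by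
  refine ⟨⟨⟨!₂[2, 1, 0], ?_⟩⟩, inferInstance, ?_⟩
  · left
    exact ⟨by show (2 : ℝ) ^ 2 + 1 ^ 2 = 5; norm_num, rfl⟩
  · intro x
    rcases x.2 with h | h
    · exact chart_one x h.1 h.2
    · exact chart_two x h.1 h.2

end Pool.Agent.H60.Clifford
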